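import Mathlib
import Pool.Agent.Lib.helper11.IoD

set_option autoImplicit false

namespace Pool.Agent.Results.MP_9660fa_lc.Ans

open Set Filter Topology Module Matrix
open scoped ContDiff

/-- The triple product property. -/
def TPP {G : Type} [Group G] (S T U : Set G) : Prop :=
  ∀ s ∈ S, ∀ s' ∈ S, ∀ t ∈ T, ∀ t' ∈ T, ∀ u ∈ U, ∀ u' ∈ U,
    (s * s'⁻¹) * (t * t'⁻¹) * (u * u'⁻¹) = 1 → s * s'⁻¹ = 1 ∧ t * t'⁻¹ = 1 ∧ u * u'⁻¹ = 1

/-- `M` contains a continuous injective image of a neighbourhood of `0` in `ℝ^m`. -/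
def HasChart {G : Type} [TopologicalSpace G] (M : Set G) (m : ℕ) : Prop :=
  ∃ (f : (Fin m → ℝ) → G) (W : Set (Fin m → ℝ)),
    IsOpen W ∧ 0 ∈ W ∧ ContinuousOn f W ∧ InjOn f W ∧ MapsTo f W M

/-- `M` is the image of a smooth map from `ℝ^m` to the matrices with a smooth left inverse. -/
def IsSub {n : ℕ} (M : Set (SpecialLinearGroup (Fin n) ℝ)) (m : ℕ) : Prop :=
  ∃ (ι : Type) (_ : Fintype ι) (f : (ι → ℝ) → Fin n → Fin n → ℝ)
    (g : (Fin n → Fin n → ℝ) → ι → ℝ), Fintype.card ι = m ∧ ContDiff ℝ ∞ f ∧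
    (∀ x, ContDiffAt ℝ ∞ g (f x) ∧ g (f x) = x) ∧ range f = (fun A i j => A.1 i j) '' M

abbrev SL2 := Matrix.SpecialLinearGroup (Fin 2) ℝ

theorem cyc {G : Type} [Group G] {S T U : Set G} (h : TPP S T U) : TPP T U S := by
  intro t ht t' ht' u hu u' hu' s hs s' hs' e
  have := h s hs s' hs' t ht t' ht' u hu u' hu' (by
    rw [mul_assoc, mul_eq_one_comm]; exact e)
  exact ⟨this.2.1, this.2.2, this.1⟩

theorem open3 {E : Type} [NormedAddCommGroup E] [NormedSpace ℝ E] (Φ : E → SL2) (W : Set E)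
    (hW : IsOpen W) (h0 : 0 ∈ W) (hc : ContinuousOn Φ W) (hi : InjOn Φ W) (h1 : Φ 0 = 1)
    (ι : (Fin 3 → ℝ) →ₗ[ℝ] E) (hι : Function.Injective ι) :
    ∀ᶠ g in 𝓝 (1 : SL2), ∃ z, ι z ∈ W ∧ Φ (ι z) = g := by
  let ψ : SL2 → Fin 3 → ℝ := fun g => ![g.1 0 0, g.1 0 1, g.1 1 0]
  have he : ∀ i j, Continuous fun g : SL2 => g.1 i j := fun i j =>
    (continuous_apply_apply i j).comp continuous_subtype_val
  have hψ : Continuous ψ := continuous_pi fun i => by
    fin_cases i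
    exacts [he 0 0, he 0 1, he 1 0]
  have hO : IsOpen {g : SL2 | g.1 0 0 ≠ 0} := isOpen_ne_fun (he 0 0) continuous_const
  have hj : InjOn ψ {g : SL2 | g.1 0 0 ≠ 0} := by
    intro g hg g' _ e
    have e0 : g.1 0 0 = g'.1 0 0 := congrFun e 0
    have e1 : g.1 0 1 = g'.1 0 1 := congrFun e 1
    have e2 : g.1 1 0 = g'.1 1 0 := congrFun e 2
    have d := g.2
    have d' := g'.2
    rw [Matrix.det_fin_two] at d d'
    have e3 : g.1 1 1 = g'.1 1 1 := mul_left_cancel₀ hg (by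
      rw [← e0, ← e1, ← e2] at d'; linarith)
    refine Subtype.ext (Matrix.ext fun i j => ?_)
    fin_cases i <;> fin_cases j <;> assumption
  have hιc : Continuous ι := ι.continuous_of_finiteDimensional
  have hc' : ContinuousOn (Φ ∘ ι) (ι ⁻¹' W) := hc.comp hιc.continuousOn fun _ h => h
  have hV := hc'.isOpen_inter_preimage (hW.preimage hιc) hO
  have := Pool.Agent.Lib.helper11.IoD.iod hV (f := ψ ∘ Φ ∘ ι)
    (hψ.comp_continuousOn (hc'.mono inter_subset_left))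
    fun z hz z' hz' e => hι (hi hz.1 hz'.1 (hj hz.2 hz'.2 e))
  have h2 : (1 : SL2) ∈ {g : SL2 | g.1 0 0 ≠ 0} := by simp
  filter_upwards [(this.preimage hψ).mem_nhds (x := 1) ⟨0, ⟨by simpa using h0, by
    simpa [h1] using h2⟩, by simp [h1]⟩, hO.mem_nhds h2] with g ⟨z, hz, e⟩ hg
  exact ⟨z, hz.1, hj hz.2 hg e⟩

theorem key {S T U : Set SL2} {a b c : ℕ} (h : TPP S T U) (hS : HasChart S a) (hT : HasChart T b)
    (hU : HasChart U c) (h3 : 3 ≤ a + b) : a + b + c ≤ 3 := by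
  obtain ⟨f₁, W₁, o₁, z₁, c₁, i₁, m₁⟩ := hS
  obtain ⟨f₂, W₂, o₂, z₂, c₂, i₂, m₂⟩ := hT
  obtain ⟨f₃, W₃, o₃, z₃, c₃, i₃, m₃⟩ := hU
  have hd : finrank ℝ ((Fin a → ℝ) × (Fin b → ℝ)) = a + b := by simp
  obtain ⟨ι, hι⟩ := (finrank_le_iff_exists_linearMap (R := ℝ) (M := Fin 3 → ℝ)
    (M' := (Fin a → ℝ) × (Fin b → ℝ))).1 (by rw [hd]; simpa using h3)
  let Φ : (Fin a → ℝ) × (Fin b → ℝ) → SL2 := fun p => f₁ 0 * (f₁ p.1)⁻¹ * (f₂ p.2 * (f₂ 0)⁻¹)
  have hc : ContinuousOn Φ (W₁ ×ˢ W₂) :=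
    (continuousOn_const.mul (c₁.comp continuousOn_fst fun _ h => h.1).inv).mul
      ((c₂.comp continuousOn_snd fun _ h => h.2).mul continuousOn_const)
  have hi : InjOn Φ (W₁ ×ˢ W₂) := by
    intro p hp q hq e
    have e' : (f₁ p.1)⁻¹ * f₂ p.2 = (f₁ q.1)⁻¹ * f₂ q.2 := by
      have e1 : (f₁ p.1)⁻¹ * (f₂ p.2 * (f₂ 0)⁻¹) = (f₁ q.1)⁻¹ * (f₂ q.2 * (f₂ 0)⁻¹) := by
        simpa [Φ, mul_assoc] using e
      rwa [← mul_assoc, ← mul_assoc, mul_left_inj] at e1
    have := h _ (m₁ hq.1) _ (m₁ hp.1) _ (m₂ hp.2) _ (m₂ hq.2) _ (m₃ z₃) _ (m₃ z₃) (by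
      rw [mul_inv_cancel, mul_one, mul_assoc, ← mul_assoc (f₁ p.1)⁻¹, e']
      simp)
    exact Prod.ext (i₁ hq.1 hp.1 (mul_inv_eq_one.1 this.1)).symm
      (i₂ hp.2 hq.2 (mul_inv_eq_one.1 this.2.1))
  have h1 : Φ 0 = 1 := by simp [Φ]
  have hW := (o₁.prod o₂).mem_nhds (show (0 : (Fin a → ℝ) × (Fin b → ℝ)) ∈ W₁ ×ˢ W₂ from ⟨z₁, z₂⟩)
  have ho := open3 Φ _ (o₁.prod o₂) ⟨z₁, z₂⟩ hc hi h1 ι hι
  have hab : a + b = 3 := by
    have h4 : ∀ᶠ p in 𝓝 (0 : (Fin a → ℝ) × (Fin b → ℝ)), p ∈ LinearMap.range ι := by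
      filter_upwards [(hc.continuousAt hW).eventually (h1 ▸ ho), hW] with p ⟨z, hz, e⟩ hp
      exact ⟨z, hi hz hp e⟩
    have h5 := (LinearMap.range ι).eq_top_of_nonempty_interior' ⟨0, mem_interior_iff_mem_nhds.2 h4⟩
    have h6 := LinearMap.finrank_range_of_inj hι
    rw [h5, finrank_top, hd] at h6
    simpa using h6
  have hc0 : c = 0 := by
    have hW3 := o₃.mem_nhds z₃
    have h4 : ContinuousAt (fun u => (f₃ u * (f₃ 0)⁻¹)⁻¹) 0 :=
      ((c₃.continuousAt hW3).mul continuousAt_const).inv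
    have h5 : ∀ᶠ u in 𝓝 (0 : Fin c → ℝ), u ∈ (⊥ : Submodule ℝ (Fin c → ℝ)) := by
      filter_upwards [h4.eventually (by simpa using ho), hW3] with u ⟨z, hz, e⟩ hu
      have := h _ (m₁ z₁) _ (m₁ hz.1) _ (m₂ hz.2) _ (m₂ z₂) _ (m₃ hu) _ (m₃ z₃)
        (eq_inv_iff_mul_eq_one.1 e)
      exact i₃ hu z₃ (mul_inv_eq_one.1 this.2.2)
    have h6 := congrArg (fun s : Submodule ℝ (Fin c → ℝ) => finrank ℝ s)
      ((⊥ : Submodule ℝ (Fin c → ℝ)).eq_top_of_nonempty_interior'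
        ⟨0, mem_interior_iff_mem_nhds.2 h5⟩)
    simpa using h6.symm
  omega

theorem two (S T U : Set (Matrix.SpecialLinearGroup (Fin 2) ℝ)) (a b c : ℕ) (h : TPP S T U)
    (hS : HasChart S a) (hT : HasChart T b) (hU : HasChart U c) : a + b + c ≤ 3 := by
  by_contra hh
  rcases (by omega : 3 ≤ a + b ∨ 3 ≤ b + c ∨ 3 ≤ c + a) with e | e | e
  · exact hh (key h hS hT hU e)
  · have := key (cyc h) hT hU hS e; omega
  · have := key (cyc (cyc h)) hU hS hT e; omega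

section
variable {n : ℕ}

theorem isSub {ι : Type} [Fintype ι] (f : (ι → ℝ) → Matrix (Fin n) (Fin n) ℝ)
    (g : Matrix (Fin n) (Fin n) ℝ → ι → ℝ) (hd : ∀ x, (f x).det = 1)
    (hf : ∀ i j, ContDiff ℝ ∞ fun x => f x i j)
    (hg : ∀ x p, ContDiffAt ℝ ∞ (fun Y : Fin n → Fin n → ℝ => g Y p) (f x))
    (h : ∀ x, g (f x) = x) : IsSub {A | ∃ x, A.1 = f x} (Fintype.card ι) :=
  ⟨ι, inferInstance, f, g, rfl, contDiff_pi.2 fun i => contDiff_pi.2 fun j => hf i j,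
    fun x => ⟨contDiffAt_pi.2 (hg x), h x⟩, Set.ext fun _ =>
      ⟨fun ⟨x, e⟩ => ⟨⟨f x, hd x⟩, ⟨x, rfl⟩, e⟩, fun ⟨_, ⟨x, e⟩, e'⟩ => ⟨x, e.symm.trans e'⟩⟩⟩

theorem cdet {E : Type} [NormedAddCommGroup E] [NormedSpace ℝ E] (F : E → Matrix (Fin n) (Fin n) ℝ)
    (x : E) (h : ∀ i j, ContDiffAt ℝ ∞ (fun y => F y i j) x) :
    ContDiffAt ℝ ∞ (fun y => (F y).det) x := by
  simp only [det_apply']
  exact ContDiffAt.sum fun σ _ => contDiffAt_const.mul (contDiffAt_prod fun i _ => h _ _)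

noncomputable def cay (A : Matrix (Fin n) (Fin n) ℝ) : Matrix (Fin n) (Fin n) ℝ :=
  (2 : ℝ) • (1 + A)⁻¹ - 1

theorem ccay {E : Type} [NormedAddCommGroup E] [NormedSpace ℝ E] (F : E → Matrix (Fin n) (Fin n) ℝ)
    (x : E) (h : ∀ i j, ContDiffAt ℝ ∞ (fun y => F y i j) x) (hd : (1 + F x).det ≠ 0) (i j : Fin n) :
    ContDiffAt ℝ ∞ (fun y => cay (F y) i j) x := by
  have h1 : ∀ i j, ContDiffAt ℝ ∞ (fun y => (1 + F y) i j) x := fun i j =>
    contDiffAt_const.add (h i j)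
  simp only [cay, inv_def, Ring.inverse_eq_inv', Matrix.sub_apply, Matrix.smul_apply, smul_eq_mul,
    adjugate_apply]
  refine (contDiffAt_const.mul (((cdet _ x h1).inv hd).mul (cdet _ x fun a b => ?_))).sub
    contDiffAt_const
  simp only [updateRow_apply]
  split_ifs
  exacts [contDiffAt_const, h1 a b]

theorem cay_spec (A : Matrix (Fin n) (Fin n) ℝ) (hA : Aᵀ = -A) : (1 + A).det ≠ 0 ∧
    (1 + cay A).det ≠ 0 ∧ cay (cay A) = A ∧ (cay A)ᵀ * cay A = 1 ∧ (cay A).det = 1 := by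
  have h0 : (1 + A).det ≠ 0 := fun h => by
    obtain ⟨v, hv, e⟩ := exists_mulVec_eq_zero_iff.2 h
    have e1 : v ⬝ᵥ A *ᵥ v = -(v ⬝ᵥ A *ᵥ v) := by
      conv_lhs => rw [dotProduct_mulVec, ← mulVec_transpose, hA, neg_mulVec, neg_dotProduct,
        dotProduct_comm]
    have e2 := congrArg (v ⬝ᵥ ·) e
    simp only [add_mulVec, one_mulVec, dotProduct_add, dotProduct_zero] at e2
    exact hv (dotProduct_self_eq_zero.1 (by linarith))
  have h1 := mul_nonsing_inv _ (Ne.isUnit h0)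
  have h2 := nonsing_inv_mul _ (Ne.isUnit h0)
  have h3 : (1 + cay A) * ((1 / 2 : ℝ) • (1 + A)) = 1 := by
    rw [cay, add_sub_cancel, smul_mul_smul_comm, h2]; norm_num
  have h4 : cay A * (1 + A) = (1 + A)ᵀ := by
    rw [cay, sub_mul, smul_mul_assoc, h2, transpose_add, hA, transpose_one, one_mul, two_smul]
    abel
  refine ⟨h0, (isUnit_det_of_right_inverse h3).ne_zero, ?_, ?_, ?_⟩
  · rw [cay, inv_eq_right_inv h3, smul_smul]
    norm_num
  · have h5 : (1 + A)ᵀ * ((cay A)ᵀ * cay A) * (1 + A) = (1 + A)ᵀ * 1 * (1 + A) := by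
      rw [← mul_assoc, ← transpose_mul, mul_assoc, h4, transpose_transpose, transpose_add, hA,
        transpose_one]
      noncomm_ring
    have u1 : IsUnit (1 + A) := (isUnit_iff_isUnit_det _).2 (Ne.isUnit h0)
    exact ((isUnit_transpose _).2 u1).mul_left_cancel (u1.mul_right_cancel h5)
  · have := congrArg det h4
    rw [det_mul, det_transpose] at this
    exact mul_right_cancel₀ h0 (by rw [this, one_mul])

abbrev Lo (n : ℕ) := {p : Fin n × Fin n // p.2 < p.1}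

def low (x : Lo n → ℝ) : Matrix (Fin n) (Fin n) ℝ :=
  fun i j => if h : j < i then x ⟨(i, j), h⟩ else 0

theorem clow (i j : Fin n) : ContDiff ℝ ∞ fun x : Lo n → ℝ => low x i j := by
  unfold low
  split_ifs
  exacts [contDiff_apply _ _ _, contDiff_const]

theorem tri {α : Type} [LinearOrder α] (b : Fin n → α) (hb : Function.Injective b)
    (A B : SpecialLinearGroup (Fin n) ℝ) (hA : A.1.BlockTriangular b)
    (hB : B.1.BlockTriangular b) : (A * B⁻¹).1.BlockTriangular b ∧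
      ∀ i, (A * B⁻¹).1 i i * B.1 i i = A.1 i i := by
  have h1 : (A * B⁻¹).1.BlockTriangular b := by
    haveI := B.1.invertibleOfIsUnitDet (by rw [B.2]; exact isUnit_one)
    have : (B⁻¹).1 = B.1⁻¹ := by rw [inv_def, B.2]; simp
    exact hA.mul (this ▸ blockTriangular_inv_of_blockTriangular hB)
  refine ⟨h1, fun i => ?_⟩
  have h2 : (A * B⁻¹).1 * B.1 = A.1 := congrArg Subtype.val (inv_mul_cancel_right A B)
  rw [← h2, mul_apply, Finset.sum_eq_single i (fun k _ hk => ?_) (by simp)]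
  rcases lt_or_gt_of_ne (hb.ne hk) with h | h
  · rw [h1 h, zero_mul]
  · rw [hB h, mul_zero]

theorem gram (l v : Matrix (Fin n) (Fin n) ℝ) (hl : ∀ i j, i < j → l i j = 0)
    (hv : ∀ i j, j < i → v i j = 0) (dl : ∀ i, l i i = 1) (dv : ∀ i, v i i = 1)
    (h : lᵀ * l = vᵀ * v) : l = 1 ∧ v = 1 := by
  have key : ∀ j, (∀ i, v i j = (1 : Matrix _ _ ℝ) i j) ∧ ∀ i, l i j = (1 : Matrix _ _ ℝ) i j := by
    intro j
    induction j using WellFoundedLT.induction with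
    | _ j ih =>
      have h1 : ∀ i, v i j = (1 : Matrix _ _ ℝ) i j := fun i => by
        rcases lt_trichotomy i j with e | rfl | e
        · have := congrFun (congrFun h i) j
          simp only [mul_apply, transpose_apply, (ih i e).1, (ih i e).2, one_apply, ite_mul,
            one_mul, zero_mul, Finset.sum_ite_eq', Finset.mem_univ, if_true] at this
          rw [← this, hl i j e, one_apply_ne e.ne]
        · rw [dv, one_apply_eq]
        · rw [hv i j e, one_apply_ne e.ne']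
      refine ⟨h1, fun i => ?_⟩
      have := congrFun (congrFun h j) j
      simp only [mul_apply, transpose_apply, h1, one_apply, ite_mul, one_mul, zero_mul,
        Finset.sum_ite_eq', Finset.mem_univ, if_true] at this
      by_cases e : i = j
      · rw [e, dl, one_apply_eq]
      · rw [← Finset.add_sum_erase _ _ (Finset.mem_univ j), dl, one_mul, add_eq_left,
          Finset.sum_eq_zero_iff_of_nonneg fun _ _ => mul_self_nonneg _] at this
        rw [one_apply_ne e]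
        exact mul_self_eq_zero.1 (this i (by simp [e]))
  exact ⟨Matrix.ext fun i j => (key j).2 i, Matrix.ext fun i j => (key j).1 i⟩
end

theorem big (k : ℕ) : ∃ (S T U : Set (SpecialLinearGroup (Fin (k + 3)) ℝ)) (a b c : ℕ),
    TPP S T U ∧ IsSub S a ∧ IsSub T b ∧ IsSub U c ∧ 3 * ((k + 3) * (k + 2)) < 2 * (a + b + c) := by
  obtain ⟨w, ws, w0, wl⟩ : ∃ w : Fin (k + 3) → ℝ, ∑ i, w i = 0 ∧ w 0 = 1 ∧ w (Fin.last _) = 1 :=
    ⟨Pi.single 0 1 + Pi.single 1 (-2) + Pi.single (Fin.last _) 1, by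
      simp [Finset.sum_add_distrib]; norm_num, by simp [Pi.single_apply, Fin.ext_iff],
      by simp [Pi.single_apply, Fin.ext_iff]⟩
  let f₁ : (Option (Lo (k + 3)) → ℝ) → Matrix (Fin (k + 3)) (Fin (k + 3)) ℝ := fun x =>
    diagonal (fun i => Real.exp (x none * w i)) + low fun p => x (some p)
  let f₂ : (Lo (k + 3) → ℝ) → Matrix (Fin (k + 3)) (Fin (k + 3)) ℝ := fun x =>
    cay (low x - (low x)ᵀ)
  let f₃ : (Lo (k + 3) → ℝ) → Matrix (Fin (k + 3)) (Fin (k + 3)) ℝ := fun x => 1 + (low x)ᵀ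
  have t₁ : ∀ x, (f₁ x).BlockTriangular OrderDual.toDual := fun x i j h => by
    have h : i < j := h
    simp [f₁, low, h.ne, h.not_gt]
  have d₁ : ∀ x i, f₁ x i i = Real.exp (x none * w i) := fun x i => by simp [f₁, low]
  have t₃ : ∀ x, (f₃ x).BlockTriangular id := fun x i j h => by
    have h : j < i := h
    simp [f₃, low, one_apply_ne h.ne', h.not_gt]
  have d₃ : ∀ x i, f₃ x i i = 1 := fun x i => by simp [f₃, low]
  have s₂ := fun x : Lo (k + 3) → ℝ => cay_spec (low x - (low x)ᵀ) (by simp)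
  have hc : 2 * Fintype.card (Lo (k + 3)) = (k + 3) * (k + 2) := by
    have := Finset.card_product_filter_lt (s := (Finset.univ : Finset (Fin (k + 3))ᵒᵈ))
    rw [Fintype.card_subtype]
    refine (congrArg (2 * ·) this).trans ?_
    simp only [Finset.card_univ, Fintype.card_orderDual, Fintype.card_fin, Nat.choose_two_right]
    exact Nat.mul_div_cancel' (Nat.even_mul_pred_self (k + 3)).two_dvd
  refine ⟨_, _, _, _, _, _, ?_,
    isSub f₁ (fun Y o => o.elim (Real.log (Y 0 0)) fun p => Y p.1.1 p.1.2) (fun x => ?_)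
      (fun i j => ?_) (fun x p => ?_) (fun x => ?_),
    isSub f₂ (fun Y p => cay Y p.1.1 p.1.2) (fun x => (s₂ x).2.2.2.2)
      (fun i j => contDiff_iff_contDiffAt.2 fun x => ccay _ x
        (fun a b => ((clow a b).sub (clow b a)).contDiffAt) (s₂ x).1 i j)
      (fun x p => ccay (fun Y : Fin (k + 3) → Fin (k + 3) → ℝ => Y) _
        (fun a b => by fun_prop) (s₂ x).2.1 _ _) (fun x => ?_),
    isSub f₃ (fun Y p => Y p.1.2 p.1.1) (fun x => ?_) (fun i j => contDiff_const.add (clow j i))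
      (fun x p => by fun_prop) (fun x => ?_), ?_⟩
  · rintro s ⟨x, hx⟩ s' ⟨x', hx'⟩ t ⟨y, hy⟩ t' ⟨y', hy'⟩ u ⟨z, hz⟩ u' ⟨z', hz'⟩ e
    obtain ⟨a1, a2⟩ := tri _ OrderDual.toDual.injective s' s (hx' ▸ t₁ x') (hx ▸ t₁ x)
    obtain ⟨b1, b2⟩ := tri _ Function.injective_id u u' (hz ▸ t₃ z) (hz' ▸ t₃ z')
    simp only [hz, hz', d₃, mul_one] at b2
    have a3 : ∀ i, (s' * s⁻¹).1 i i = Real.exp ((x' none - x none) * w i) := fun i => by
      have := a2 i
      rw [hx, hx', d₁, d₁] at this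
      rw [sub_mul, Real.exp_sub, eq_div_iff (Real.exp_pos _).ne', this]
    have e1 : s' * s⁻¹ = t * t'⁻¹ * (u * u'⁻¹) := by
      rw [mul_assoc (s * s'⁻¹), mul_eq_one_iff_inv_eq] at e
      rw [← e]; simp
    have o1 : (t * t'⁻¹).1ᵀ * (t * t'⁻¹).1 = 1 := by
      have h1 : (t * t'⁻¹).1 * t'.1 = t.1 := congrArg Subtype.val (inv_mul_cancel_right t t')
      have h2 : t.1 * t.1ᵀ = 1 := mul_eq_one_comm.1 (hy ▸ (s₂ y).2.2.2.1)
      have h3 : t'.1 * t'.1ᵀ = 1 := mul_eq_one_comm.1 (hy' ▸ (s₂ y').2.2.2.1)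
      rw [← h1, transpose_mul, mul_assoc, ← mul_assoc t'.1, h3, one_mul] at h2
      exact mul_eq_one_comm.1 h2
    have g1 : (s' * s⁻¹).1ᵀ * (s' * s⁻¹).1 = (u * u'⁻¹).1ᵀ * (u * u'⁻¹).1 := by
      have e2 : (s' * s⁻¹).1 = (t * t'⁻¹).1 * (u * u'⁻¹).1 := congrArg Subtype.val e1
      rw [e2, transpose_mul, mul_assoc, ← mul_assoc _ (t * t'⁻¹).1, o1,
        one_mul]
    generalize s' * s⁻¹ = l at *
    generalize u * u'⁻¹ = v at *
    have hτ : x' none - x none = 0 := by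
      have p0 := congrFun (congrFun g1 0) 0
      have pl := congrFun (congrFun g1 (Fin.last _)) (Fin.last _)
      simp only [mul_apply, transpose_apply] at p0 pl
      rw [Finset.sum_eq_single (f := fun j => v.1 j 0 * v.1 j 0) 0
        (fun j _ hj => by rw [b1 (Fin.pos_iff_ne_zero.2 hj), mul_zero]) (by simp), b2] at p0
      rw [Finset.sum_eq_single (f := fun j => l.1 j (Fin.last _) * l.1 j (Fin.last _)) (Fin.last _)
        (fun j _ hj => mul_eq_zero_of_left (a1 (Fin.lt_last_iff_ne_last.2 hj)) _) (by simp), a3] at pl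
      have q0 := Finset.single_le_sum (f := fun j => l.1 j 0 * l.1 j 0)
        (fun _ _ => mul_self_nonneg _) (Finset.mem_univ 0)
      have ql := Finset.single_le_sum (f := fun j => v.1 j (Fin.last _) * v.1 j (Fin.last _))
        (fun _ _ => mul_self_nonneg _) (Finset.mem_univ (Fin.last _))
      simp only [a3, b2, p0, ← pl, w0, wl, mul_one, ← Real.exp_add, Real.exp_le_one_iff,
        Real.one_le_exp_iff] at q0 ql
      linarith
    obtain ⟨c1, c2⟩ := gram l.1 v.1 (fun i j h => a1 h) (fun i j h => b1 h)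
      (fun i => by rw [a3, hτ, zero_mul, Real.exp_zero]) b2 g1
    obtain rfl : l = 1 := Subtype.ext c1
    obtain rfl : v = 1 := Subtype.ext c2
    rw [mul_one] at e1 e
    rw [← e1, mul_one] at e
    exact ⟨e, e1.symm, rfl⟩
  · rw [det_of_isLowerTriangular _ (t₁ x)]
    simp only [d₁]
    rw [← Real.exp_sum, ← Finset.mul_sum, ws, mul_zero, Real.exp_zero]
  · refine ContDiff.add ?_ ((clow i j).comp (f := fun (x : Option (Lo (k + 3)) → ℝ) p => x (some p)) (by fun_prop))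
    simp only [diagonal_apply]
    split_ifs <;> fun_prop
  · cases p with
    | none => exact ContDiffAt.log (by fun_prop) (by rw [d₁]; exact (Real.exp_pos _).ne')
    | some p => exact (by fun_prop : ContDiffAt ℝ ∞
        (fun Y : Fin (k + 3) → Fin (k + 3) → ℝ => Y p.1.1 p.1.2) (f₁ x))
  · funext o
    cases o with
    | none => simp [d₁, w0]
    | some p => simp [f₁, low, p.2, p.2.ne']
  · funext p
    simp [f₂, (s₂ x).2.2.1, low, p.2, p.2.not_gt]
  · rw [det_of_isUpperTriangular (t₃ x)]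
    simp [d₃]
  · funext p
    simp [f₃, low, p.2, one_apply_ne p.2.ne]
  · rw [Fintype.card_option]
    omega

theorem result : (∀ (S T U : Set (SpecialLinearGroup (Fin 2) ℝ)) (a b c : ℕ), TPP S T U →
      HasChart S a → HasChart T b → HasChart U c → a + b + c ≤ 3) ∧
    ∀ n, 3 ≤ n → ∃ (S T U : Set (SpecialLinearGroup (Fin n) ℝ)) (a b c : ℕ), TPP S T U ∧
      IsSub S a ∧ IsSub T b ∧ IsSub U c ∧ 3 * (n * (n - 1)) < 2 * (a + b + c) := by
  refine ⟨two, fun n hn => ?_⟩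
  obtain ⟨k, rfl⟩ : ∃ k, n = k + 3 := ⟨n - 3, by omega⟩
  exact big k

end Pool.Agent.Results.MP_9660fa_lc.Ans
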